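import Mathlib

/-!
# [H82 SG] Soluble graph of `PSL_n(q)`: group theory

`solv_of_normalizer`: if `t` lies in a commutative subgroup `U` and `x` normalizes `U`, then `⟨x, t⟩` is
soluble.
-/

set_option autoImplicit false

namespace H82SG

open Subgroup

variable {G : Type*} [Group G]

/-- `⟨x, y⟩` is soluble. -/
def Sol (x y : G) : Prop := Group.IsSolvable (closure {x, y} : Subgroup G)

theorem Sol.symm {x y : G} (h : Sol x y) : Sol y x := by
  unfold Sol at *
  rwa [Set.pair_comm]

theorem solv_of_normalizer (U : Subgroup G) (hU : ∀ a ∈ U, ∀ b ∈ U, a * b = b * a) {x t : G}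
    (hx : x ∈ normalizer (U : Set G)) (ht : t ∈ U) : Sol x t := by
  unfold Sol
  have hK : closure {x, t} ≤ normalizer (U : Set G) := by
    rw [closure_le]
    rintro g (rfl | hg)
    · exact hx
    · rw [Set.mem_singleton_iff] at hg
      subst hg
      exact le_normalizer ht
  obtain ⟨K, hKd⟩ : ∃ K, K = closure {x, t} := ⟨_, rfl⟩
  rw [← hKd] at hK ⊢
  have hxK : x ∈ K := by rw [hKd]; exact subset_closure (by simp)
  have htK : t ∈ K := by rw [hKd]; exact subset_closure (by simp)
  have hN : (U.subgroupOf K).Normal := normal_subgroupOf_of_le_normalizer hK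
  have h1 : Group.IsSolvable (U.subgroupOf K) := by
    refine Group.isSolvable_of_comm fun a b => ?_
    ext
    exact hU _ a.2 _ b.2
  have h3 : (⊤ : Subgroup (K ⧸ U.subgroupOf K)) ≤
      zpowers (QuotientGroup.mk' (U.subgroupOf K) ⟨x, hxK⟩) := by
    have h4 : (⊤ : Subgroup K) = Subgroup.closure ({⟨x, hxK⟩, ⟨t, htK⟩} : Set K) := by
      subst hKd
      rw [← closure_closure_coe_preimage]
      congr 1
      ext ⟨g, hg⟩
      simp
    have h5 : (⊤ : Subgroup (K ⧸ U.subgroupOf K)) =
        Subgroup.map (QuotientGroup.mk' (U.subgroupOf K)) ⊤ := by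
      rw [Subgroup.map_top_of_surjective _ (QuotientGroup.mk'_surjective _)]
    rw [h5, h4, MonoidHom.map_closure, closure_le]
    rintro _ ⟨g, (rfl | hg), rfl⟩
    · exact mem_zpowers _
    · rw [Set.mem_singleton_iff] at hg
      subst hg
      have h6 : QuotientGroup.mk' (U.subgroupOf K) ⟨t, htK⟩ = 1 := by
        rw [QuotientGroup.mk'_apply, QuotientGroup.eq_one_iff]
        exact ht
      rw [h6]
      exact one_mem _
  have h2 : Group.IsSolvable (K ⧸ U.subgroupOf K) := by
    refine Group.isSolvable_of_comm fun a b => ?_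
    obtain ⟨i, rfl⟩ := mem_zpowers_iff.1 (h3 (mem_top a))
    obtain ⟨j, rfl⟩ := mem_zpowers_iff.1 (h3 (mem_top b))
    rw [← zpow_add, ← zpow_add, add_comm]
  exact Group.isSolvable_of_ker_le_range (U.subgroupOf K).subtype
    (QuotientGroup.mk' (U.subgroupOf K)) (by rw [QuotientGroup.ker_mk', Subgroup.range_subtype])

theorem sol_of_comm {x y : G} (h : x * y = y * x) : Sol x y := by
  have h1 : y ∈ normalizer (zpowers x : Set G) := by
    rw [mem_normalizer_iff]
    have hc : Commute x y := h
    intro g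
    constructor
    · intro hg
      obtain ⟨i, rfl⟩ := mem_zpowers_iff.1 hg
      have h2 : y * x ^ i * y⁻¹ = x ^ i := by
        rw [← (hc.zpow_left i).eq, mul_inv_cancel_right]
      rw [h2]
      exact hg
    · intro hg
      obtain ⟨i, hi⟩ := mem_zpowers_iff.1 hg
      have h2 : g = x ^ i := by
        have h3 : g = y⁻¹ * (y * g * y⁻¹) * y := by group
        rw [h3, ← hi, mul_assoc, (hc.zpow_left i).eq, ← mul_assoc, inv_mul_cancel, one_mul]
      rw [h2]
      exact zpow_mem (mem_zpowers x) i
  refine (solv_of_normalizer (zpowers x) ?_ h1 (mem_zpowers x)).symm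
  intro a ha b hb
  obtain ⟨i, rfl⟩ := mem_zpowers_iff.1 ha
  obtain ⟨j, rfl⟩ := mem_zpowers_iff.1 hb
  rw [← zpow_add, ← zpow_add, add_comm]

theorem Sol.map {G' : Type*} [Group G'] (f : G →* G') {x y : G} (h : Sol x y) :
    Sol (f x) (f y) := by
  unfold Sol at *
  have h1 : closure {f x, f y} = (closure {x, y}).map f := by
    rw [MonoidHom.map_closure, Set.image_pair]
  rw [h1]
  exact Group.isSolvable_of_surjective (f := f.subgroupMap (closure {x, y}))
    (f.subgroupMap_surjective _)

end H82SG
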