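import Pool.Agent.H82.SG.Tv

/-!
# [H82 SG] The irreducible elements

If `x` preserves no subspace, then `F[x]` is a field and `V` is a line over it.  The map `a` (the square of the
Frobenius map) fixes a given vector `v`, normalizes the group of the elements commuting with `x`, and has
determinant `1`.
-/

set_option autoImplicit false

namespace H82SG

open Module Polynomial

theorem det_sq {F E : Type*} [Field F] [Field E] [Algebra F E] [FiniteDimensional F E]
    [Algebra.IsSeparable F E] (σ : E ≃ₐ[F] E) : LinearMap.det (σ.toLinearMap) ^ 2 = 1 := by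
  classical
  obtain ⟨b, -⟩ : ∃ b : Basis (Fin (finrank F E)) F E, True := ⟨finBasis F E, trivial⟩
  obtain ⟨M, hM⟩ : ∃ M, M = LinearMap.toMatrix b b σ.toLinearMap := ⟨_, rfl⟩
  have h1 : Matrix.vecMul b (M.map (algebraMap F E)) = σ ∘ b := by
    funext i
    have h2 := b.sum_repr (σ (b i))
    simp only [Matrix.vecMul, dotProduct, Matrix.map_apply, Function.comp]
    rw [← h2]
    refine Finset.sum_congr rfl fun j _ => ?_
    rw [hM, LinearMap.toMatrix_apply, Algebra.smul_def, mul_comm]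
    rfl
  have h2 := Algebra.discr_of_matrix_vecMul (A := F) b M
  rw [h1, ← Algebra.discr_eq_discr_of_algEquiv] at h2
  have h3 : Algebra.discr F b ≠ 0 := Algebra.discr_not_zero_of_basis F b
  have h4 : M.det ^ 2 = 1 := by
    have h5 : (M.det ^ 2 - 1) * Algebra.discr F b = 0 := by rw [sub_mul, ← h2, one_mul, sub_self]
    rcases mul_eq_zero.1 h5 with h6 | h6
    · exact sub_eq_zero.1 h6
    · exact absurd h6 h3
  rw [← LinearMap.det_toMatrix b, ← hM]
  exact h4

universe u w

variable {F : Type u} {V : Type w} [Field F] [Finite F] [AddCommGroup V] [Module F V] [FiniteDimensional F V]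

theorem minpoly_irreducible (hV : 0 < finrank F V) {x : End F V}
    (hirr : ∀ W : Submodule F V, (∀ w ∈ W, x w ∈ W) → W = ⊥ ∨ W = ⊤) :
    Irreducible (minpoly F x) := by
  have hint : IsIntegral F x := Algebra.IsIntegral.isIntegral x
  have hnt : Nontrivial V := Module.nontrivial_of_finrank_pos hV
  refine Prime.irreducible ⟨minpoly.ne_zero hint, minpoly.not_isUnit F x, fun a b hab => ?_⟩
  have h1 : aeval x a * aeval x b = 0 := by
    rw [← map_mul]
    exact (minpoly.dvd_iff).1 hab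
  by_cases h2 : aeval x b = 0
  · exact Or.inr (minpoly.dvd F x h2)
  left
  have h3 : ∃ u, aeval x b u ≠ 0 := by
    by_contra hcon
    push Not at hcon
    exact h2 (LinearMap.ext hcon)
  obtain ⟨u, hu⟩ := h3
  have h4 := hirr (LinearMap.ker (aeval x a)) (fun w hw => by
    rw [LinearMap.mem_ker] at hw ⊢
    have h5 : aeval x a * x = x * aeval x a := by
      have h6 : aeval x (a * X) = aeval x (X * a) := by rw [mul_comm]
      rwa [map_mul, map_mul, aeval_X] at h6
    have h6 : aeval x a (x w) = x (aeval x a w) := LinearMap.congr_fun h5 w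
    rw [h6, hw, map_zero])
  rcases h4 with h4 | h4
  · exfalso
    have h5 : aeval x b u ∈ LinearMap.ker (aeval x a) := LinearMap.congr_fun h1 u
    rw [h4, Submodule.mem_bot] at h5
    exact hu h5
  · refine minpoly.dvd F x (LinearMap.ext fun w => ?_)
    have h5 : w ∈ LinearMap.ker (aeval x a) := by rw [h4]; trivial
    exact h5

/-- The data of the field structure. -/
theorem exists_field (hV : 0 < finrank F V) {x : V ≃ₗ[F] V}
    (hirr : ∀ W : Submodule F V, (∀ w ∈ W, x w ∈ W) → W = ⊥ ∨ W = ⊤) {v : V} (hv : v ≠ 0) :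
    ∃ (E : Type u) (_ : Field E) (_ : Algebra F E) (Λ : E →ₐ[F] End F V) (ε : E ≃ₗ[F] V)
      (ξ : E), (∀ e, ε e = Λ e v) ∧ (∀ u, Λ ξ u = x u) ∧
      ∀ e, Λ e ∈ Algebra.adjoin F {(x : V →ₗ[F] V)} := by
  have hp := minpoly_irreducible (x := (x : V →ₗ[F] V)) hV hirr
  have hf : Fact (Irreducible (minpoly F (x : V →ₗ[F] V))) := ⟨hp⟩
  let Λ : AdjoinRoot (minpoly F (x : V →ₗ[F] V)) →ₐ[F] End F V :=
    Ideal.Quotient.liftₐ (Ideal.span {minpoly F (x : V →ₗ[F] V)}) (aeval (x : V →ₗ[F] V))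
      (fun a ha => by
        rw [Ideal.mem_span_singleton] at ha
        exact minpoly.dvd_iff.1 ha)
  have hΛ : ∀ q : F[X], Λ (AdjoinRoot.mk _ q) = aeval (x : V →ₗ[F] V) q := fun q => rfl
  have hroot : Λ (AdjoinRoot.root _) = (x : V →ₗ[F] V) := by
    have h1 := hΛ X
    rwa [aeval_X] at h1
  obtain ⟨ev, hev⟩ : ∃ ev : AdjoinRoot (minpoly F (x : V →ₗ[F] V)) →ₗ[F] V, ∀ e, ev e = Λ e v :=
    ⟨(LinearMap.applyₗ v).comp Λ.toLinearMap, fun e => rfl⟩
  have hinj : Function.Injective ev := by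
    rw [injective_iff_map_eq_zero]
    intro e he
    by_contra h0
    rw [hev] at he
    have h1 : Λ (e⁻¹ * e) v = v := by
      rw [inv_mul_cancel₀ h0, map_one]
      rfl
    rw [map_mul] at h1
    have h2 : (Λ e⁻¹ * Λ e) v = Λ e⁻¹ (Λ e v) := rfl
    rw [h2, he, map_zero] at h1
    exact hv h1.symm
  have hsurj : Function.Surjective ev := by
    rw [← LinearMap.range_eq_top]
    rcases hirr (LinearMap.range ev) (by
      rintro _ ⟨e, rfl⟩
      refine ⟨AdjoinRoot.root _ * e, ?_⟩
      rw [hev, hev, map_mul, hroot]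
      rfl) with h1 | h1
    · exfalso
      have h2 : v ∈ LinearMap.range ev := ⟨1, by rw [hev, map_one]; rfl⟩
      rw [h1, Submodule.mem_bot] at h2
      exact hv h2
    · exact h1
  refine ⟨AdjoinRoot (minpoly F (x : V →ₗ[F] V)), inferInstance, inferInstance, Λ,
    LinearEquiv.ofBijective ev ⟨hinj, hsurj⟩, AdjoinRoot.root _, fun e => ?_, fun u => ?_,
    fun e => ?_⟩
  · rw [LinearEquiv.ofBijective_apply]
    exact hev e
  · rw [hroot]
    rfl
  · obtain ⟨q, rfl⟩ := AdjoinRoot.mk_surjective e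
    rw [hΛ]
    exact aeval_mem_adjoin_singleton F _

theorem irr_link (hn : 3 ≤ finrank F V) {x : V ≃ₗ[F] V}
    (hirr : ∀ W : Submodule F V, (∀ w ∈ W, x w ∈ W) → W = ⊥ ∨ W = ⊤) (f : Dual F V) {v : V}
    (hv : v ≠ 0) : Lk x f v := by
  classical
  intro hfv
  obtain ⟨E, _, _, Λ, ε, ξ, hε, hξ, hadj⟩ := exists_field (by omega) hirr hv
  have hfd : FiniteDimensional F E := LinearEquiv.finiteDimensional ε.symm
  have hfinV : Finite V := Module.finite_of_finite F
  have hfinE : Finite E := Module.finite_of_finite F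
  have := Fintype.ofFinite F
  have := Fintype.ofFinite E
  have hε1 : ε 1 = v := by rw [hε, map_one]; rfl
  obtain ⟨φ, hφ⟩ : ∃ φ : E ≃ₐ[F] E, ∀ e, φ e = e ^ Fintype.card F :=
    ⟨FiniteField.frobeniusAlgEquivOfAlgebraic F E, fun e => rfl⟩
  obtain ⟨z, hz⟩ : ∃ z : V ≃ₗ[F] V, ∀ e, z (ε e) = ε (φ e) := by
    refine ⟨(ε.symm.trans φ.toLinearEquiv).trans ε, fun e => ?_⟩
    simp
  have hzdet : LinearEquiv.det (z * z) = 1 := by
    have h1 : (z : V →ₗ[F] V) = (ε : E →ₗ[F] V).comp (φ.toLinearMap.comp (ε.symm : V →ₗ[F] E)) := by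
      ext u
      obtain ⟨e, rfl⟩ := ε.surjective u
      simp [hz]
    have h2 : LinearMap.det (z : V →ₗ[F] V) = LinearMap.det φ.toLinearMap := by
      rw [h1]
      exact LinearMap.det_conj _ ε
    rw [← Units.val_inj, map_mul, Units.val_mul, LinearEquiv.coe_det, h2, ← sq, det_sq φ,
      Units.val_one]
  have hΛΛ : ∀ e g, Λ e (ε g) = ε (e * g) := fun e g => by
    rw [hε, hε, map_mul]
    rfl
  -- the centralizer of `x`
  obtain ⟨C, hC⟩ : ∃ C : Subgroup (V ≃ₗ[F] V), C = Subgroup.centralizer {x} := ⟨_, rfl⟩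
  have hmem : ∀ g, g ∈ C ↔ ∀ u, g (x u) = x (g u) := by
    intro g
    rw [hC, Subgroup.mem_centralizer_iff]
    constructor
    · intro h u
      exact (LinearEquiv.congr_fun (h x rfl) u).symm
    · intro h y hy
      rw [Set.mem_singleton_iff] at hy
      subst hy
      ext u
      exact (h u).symm
  have hchar : ∀ g ∈ C, ∃ e, ∀ u, g u = Λ e u := by
    intro g hg
    have h1 : ∀ e u, g (Λ e u) = Λ e (g u) := by
      intro e u
      have h2 : Algebra.adjoin F {(x : V →ₗ[F] V)} ≤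
          Subalgebra.centralizer F {(g : V →ₗ[F] V)} := by
        rw [Algebra.adjoin_le_iff]
        rintro _ rfl
        rw [SetLike.mem_coe, Subalgebra.mem_centralizer_iff]
        rintro _ rfl
        ext u
        exact (hmem g).1 hg u
      have h3 := (Subalgebra.mem_centralizer_iff F).1 (h2 (hadj e)) _ rfl
      exact LinearMap.congr_fun h3 u
    refine ⟨ε.symm (g v), fun u => ?_⟩
    obtain ⟨e, rfl⟩ := ε.surjective u
    have h2 : g (ε e) = Λ e (g v) := by rw [← h1, ← hε1, hΛΛ, mul_one]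
    have h3 : Λ e (g v) = ε (e * ε.symm (g v)) := by
      rw [← hΛΛ, LinearEquiv.apply_symm_apply]
    rw [h2, h3, hΛΛ, mul_comm]
  have hcomm : ∀ a ∈ C, ∀ b ∈ C, a * b = b * a := by
    intro a ha b hb
    obtain ⟨e, he⟩ := hchar a ha
    obtain ⟨g, hg⟩ := hchar b hb
    ext u
    show a (b u) = b (a u)
    obtain ⟨k, rfl⟩ := ε.surjective u
    rw [hg, hg, he, he, hΛΛ, hΛΛ, hΛΛ, hΛΛ]
    congr 1
    ring
  have hxC : x ∈ C := (hmem x).2 fun u => rfl
  have hfinG : Finite (V ≃ₗ[F] V) := Finite.of_injective (fun e => (e : V → V)) DFunLike.coe_injective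
  have hzN : z ∈ Subgroup.normalizer (C : Set (V ≃ₗ[F] V)) := by
    have hfC : Finite (C : Set (V ≃ₗ[F] V)) := Subtype.finite
    refine Subgroup.mem_normalizer_fintype fun g hg => ?_
    obtain ⟨e, he⟩ := hchar g hg
    have h1 : ∀ u, (z * g * z⁻¹) u = Λ (φ e) u := by
      intro u
      have h2 : (z * g * z⁻¹) u = z (g (z⁻¹ u)) := rfl
      obtain ⟨k, hk⟩ := ε.surjective (z⁻¹ u)
      have h3 : z (z⁻¹ u) = u := z.apply_symm_apply u
      rw [← hk, hz] at h3
      rw [h2, ← hk, he, hΛΛ, hz, map_mul, ← hΛΛ, h3]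
    rw [SetLike.mem_coe, hmem]
    intro u
    obtain ⟨k, rfl⟩ := ε.surjective u
    rw [h1, h1, ← hξ, ← hξ, hΛΛ, hΛΛ, hΛΛ, hΛΛ]
    congr 1
    ring
  have hzv : z v = v := by rw [← hε1, hz, map_one]
  refine ⟨z * z, hzdet, ?_, ?_, ?_⟩
  · rintro ⟨c, hc⟩
    have h1 : (z * z) v = v := by
      show z (z v) = v
      rw [hzv, hzv]
    have h2 : c = 1 := by
      have h3 := hc v
      rw [h1] at h3
      have h4 : (c - 1) • v = 0 := by rw [sub_smul, one_smul, ← h3, sub_self]
      rcases smul_eq_zero.1 h4 with h5 | h5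
      · exact sub_eq_zero.1 h5
      · exact absurd h5 hv
    have h3 : ∀ e : E, e ^ (Fintype.card F ^ 2) = e := by
      intro e
      have h4 := hc (ε e)
      have h5 : (z * z) (ε e) = ε (φ (φ e)) := by
        show z (z (ε e)) = _
        rw [hz, hz]
      rw [h5, h2, one_smul] at h4
      have h6 := ε.injective h4
      rw [hφ, hφ, ← pow_mul, ← sq] at h6
      exact h6
    have hq : 1 < Fintype.card F := Fintype.one_lt_card
    have h4 : Fintype.card E ≤ Fintype.card F ^ 2 := by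
      have h5 : (X ^ Fintype.card F ^ 2 - X : E[X]).natDegree = Fintype.card F ^ 2 :=
        FiniteField.X_pow_card_pow_sub_X_natDegree_eq E (by norm_num) hq
      have h6 : (X ^ Fintype.card F ^ 2 - X : E[X]) ≠ 0 :=
        FiniteField.X_pow_card_pow_sub_X_ne_zero E (by norm_num) hq
      have h7 := Polynomial.card_le_degree_of_subset_roots (p := (X ^ Fintype.card F ^ 2 - X : E[X]))
        (Z := Finset.univ) (fun e _ => by
          rw [Polynomial.mem_roots h6, Polynomial.IsRoot.def, eval_sub, eval_pow, eval_X, h3,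
            sub_self])
      rwa [h5, Finset.card_univ] at h7
    have h5 : Fintype.card E = Fintype.card F ^ finrank F E := Module.card_eq_pow_finrank
    rw [h5] at h4
    have h6 := (Nat.pow_le_pow_iff_right hq).1 h4
    have h7 : finrank F E = finrank F V := LinearEquiv.finrank_eq ε
    omega
  · exact (solv_of_normalizer C hcomm (mul_mem hzN hzN) hxC).symm
  · refine solv_of_normalizer (rad (Submodule.span F {v})) (rad_comm _) (mem_normalizer_rad ?_)
      (tv_mem_rad hfv (Submodule.mem_span_singleton_self v) ?_)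
    · intro w hw
      obtain ⟨c, rfl⟩ := Submodule.mem_span_singleton.1 hw
      have h1 : (z * z) (c • v) = c • v := by
        show z (z (c • v)) = c • v
        rw [map_smul, hzv, map_smul, hzv]
      rw [h1]
      exact hw
    · intro w hw
      obtain ⟨c, rfl⟩ := Submodule.mem_span_singleton.1 hw
      rw [map_smul, hfv, smul_zero]

theorem many (hn : 3 ≤ finrank F V) (x : V ≃ₗ[F] V) : Many x := by
  by_cases hirr : ∀ W : Submodule F V, (∀ w ∈ W, x w ∈ W) → W = ⊥ ∨ W = ⊤
  · obtain ⟨v, hv, -⟩ := exists_vec2 hn (0 : Dual F V) 0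
    exact Or.inl ⟨v, hv, fun f u _ hu _ => irr_link hn hirr f hu⟩
  · push Not at hirr
    obtain ⟨W, hW, h0, h1⟩ := hirr
    exact red_link hn h0 h1 hW

theorem path (hn : 3 ≤ finrank F V) (x y : V ≃ₗ[F] V) :
    ∃ a b c : V ≃ₗ[F] V, (LinearEquiv.det a = 1 ∧ ¬ IsScalar a) ∧
      (LinearEquiv.det b = 1 ∧ ¬ IsScalar b) ∧ (LinearEquiv.det c = 1 ∧ ¬ IsScalar c) ∧
      Sol x a ∧ Sol a b ∧ Sol b c ∧ Sol c y := by
  obtain ⟨f, v, hf, hv, hfv, h1, h2⟩ := exists_common hn (many hn x) (many hn y)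
  obtain ⟨a, a1, a2, a3, a4⟩ := h1 hfv
  obtain ⟨c, c1, c2, c3, c4⟩ := h2 hfv
  exact ⟨a, LinearEquiv.transvection hfv, c, ⟨a1, a2⟩,
    ⟨LinearEquiv.transvection.det_eq_one _, tv_not_scalar _ hf hv⟩, ⟨c1, c2⟩, a3, a4, c4.symm,
    c3.symm⟩

end H82SG
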