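import Pool.Agent.H82.SG.Irr

/-!
# [H82 SG] The groups between `PSL_n(q)` and `PGL_n(q)`
-/

set_option autoImplicit false

namespace H82SG

open Module

theorem Sol.of_injective {G G' : Type*} [Group G] [Group G'] (f : G →* G')
    (hf : Function.Injective f) {x y : G} (h : Sol (f x) (f y)) : Sol x y := by
  unfold Sol at *
  have h1 : Subgroup.closure {f x, f y} = (Subgroup.closure {x, y}).map f := by
    rw [MonoidHom.map_closure, Set.image_pair]
  rw [h1] at h
  refine Group.isSolvable_of_isSolvable_injective (f := f.subgroupMap (Subgroup.closure {x, y})) ?_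
  intro a b hab
  have h2 : f a = f b := congrArg Subtype.val hab
  exact Subtype.ext (hf h2)

theorem scalar_of_comm {F V : Type*} [Field F] [AddCommGroup V] [Module F V]
    [FiniteDimensional F V] (hn : 3 ≤ finrank F V) {a : V ≃ₗ[F] V}
    (h : ∀ t : V ≃ₗ[F] V, LinearEquiv.det t = 1 → a * t = t * a) : IsScalar a := by
  have h1 : ∀ u : V, ¬ LinearIndependent F ![u, (a : V →ₗ[F] V) u] := by
    intro u hu
    obtain ⟨f, hf, hfu, -⟩ := exists_dual2 hn u u
    obtain ⟨w, hw⟩ : ∃ w, f w ≠ 0 := by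
      by_contra hcon
      push Not at hcon
      exact hf (LinearMap.ext hcon)
    have h2 := LinearEquiv.congr_fun (h _ (LinearEquiv.transvection.det_eq_one hfu)) w
    have h3 : a (w + f w • u) = a w + f (a w) • u := h2
    rw [map_add, map_smul, add_right_inj] at h3
    rw [LinearIndependent.pair_iff] at hu
    have h4 := hu (f (a w)) (-(f w)) (by
      show f (a w) • u + (-(f w)) • a u = 0
      rw [neg_smul, h3, add_neg_cancel])
    exact hw (neg_eq_zero.1 h4.2)
  obtain ⟨c, hc⟩ := LinearMap.exists_eq_smul_id_of_forall_notLinearIndependent h1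
  refine ⟨c, fun v => ?_⟩
  have h2 := LinearMap.congr_fun hc v
  exact h2

/-- Matrices and linear maps. -/
noncomputable def Th (F : Type*) [Field F] (n : ℕ) :
    Matrix.GeneralLinearGroup (Fin n) F ≃* ((Fin n → F) ≃ₗ[F] (Fin n → F)) :=
  Matrix.GeneralLinearGroup.toLin.trans (LinearMap.GeneralLinearGroup.generalLinearEquiv F _)

theorem det_Th {F : Type*} [Field F] {n : ℕ} (g : Matrix.GeneralLinearGroup (Fin n) F) :
    LinearEquiv.det (Th F n g) = Matrix.GeneralLinearGroup.det g := by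
  rw [← Units.val_inj, LinearEquiv.coe_det]
  exact LinearMap.det_toLin' (g : Matrix (Fin n) (Fin n) F)

theorem quo_path {F : Type} [Field F] [Finite F] {n : ℕ} (hn : 3 ≤ n)
    (H : Subgroup (Matrix.GeneralLinearGroup (Fin n) F))
    (hH : ∀ g : Matrix.GeneralLinearGroup (Fin n) F, Matrix.GeneralLinearGroup.det g = 1 → g ∈ H)
    (x y : H ⧸ Subgroup.center H) :
    ∃ a b c : H ⧸ Subgroup.center H, a ≠ 1 ∧ b ≠ 1 ∧ c ≠ 1 ∧ Sol x a ∧ Sol a b ∧ Sol b c ∧
      Sol c y := by
  have hn' : 3 ≤ finrank F (Fin n → F) := by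
    rw [Module.finrank_fin_fun]
    exact hn
  obtain ⟨x, rfl⟩ := QuotientGroup.mk'_surjective _ x
  obtain ⟨y, rfl⟩ := QuotientGroup.mk'_surjective _ y
  obtain ⟨Φ, hΦ⟩ : ∃ Φ : H →* ((Fin n → F) ≃ₗ[F] (Fin n → F)), ∀ h, Φ h = Th F n h :=
    ⟨(Th F n).toMonoidHom.comp H.subtype, fun h => rfl⟩
  have hinj : Function.Injective Φ := by
    intro a b hab
    rw [hΦ, hΦ] at hab
    exact Subtype.ext ((Th F n).injective hab)
  have hlift : ∀ a : (Fin n → F) ≃ₗ[F] (Fin n → F), LinearEquiv.det a = 1 → ∃ a' : H, Φ a' = a := by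
    intro a ha
    obtain ⟨g, rfl⟩ := (Th F n).surjective a
    rw [det_Th] at ha
    exact ⟨⟨g, hH g ha⟩, hΦ _⟩
  have hne : ∀ a' : H, ¬ IsScalar (Φ a') → QuotientGroup.mk' (Subgroup.center H) a' ≠ 1 := by
    intro a' ha' h1
    apply ha'
    rw [QuotientGroup.mk'_apply, QuotientGroup.eq_one_iff, Subgroup.mem_center_iff] at h1
    refine scalar_of_comm hn' fun t ht => ?_
    obtain ⟨t', rfl⟩ := hlift t ht
    rw [← map_mul, ← map_mul, h1 t']
  obtain ⟨a, b, c, ⟨a1, a2⟩, ⟨b1, b2⟩, ⟨c1, c2⟩, h1, h2, h3, h4⟩ := path hn' (Φ x) (Φ y)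
  obtain ⟨a', rfl⟩ := hlift a a1
  obtain ⟨b', rfl⟩ := hlift b b1
  obtain ⟨c', rfl⟩ := hlift c c1
  exact ⟨_, _, _, hne a' a2, hne b' b2, hne c' c2,
    (Sol.of_injective Φ hinj h1).map _, (Sol.of_injective Φ hinj h2).map _,
    (Sol.of_injective Φ hinj h3).map _, (Sol.of_injective Φ hinj h4).map _⟩

end H82SG
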