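import Pool.Agent.H82.SG.Grp

/-!
# [H82 SG] Transvections and the reducible elements

`rad W` is the unipotent radical of the stabiliser of the subspace `W`.  `red_link`: an element which
preserves a subspace `W ≠ 0, V` is at distance two from all transvections in a large set.
-/

set_option autoImplicit false

namespace H82SG

open Module

variable {F V : Type*} [Field F] [AddCommGroup V] [Module F V]

/-- `g` is a scalar map. -/
def IsScalar (g : V ≃ₗ[F] V) : Prop := ∃ c : F, ∀ v, g v = c • v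

/-- The unipotent radical of the stabiliser of `W`. -/
def rad (W : Submodule F V) : Subgroup (V ≃ₗ[F] V) where
  carrier := {g | (∀ w ∈ W, g w = w) ∧ ∀ v, g v - v ∈ W}
  one_mem' := by
    refine ⟨fun w _ => rfl, fun v => ?_⟩
    show v - v ∈ W
    rw [sub_self]
    exact W.zero_mem
  mul_mem' := by
    rintro a b ⟨ha, ha'⟩ ⟨hb, hb'⟩
    refine ⟨fun w hw => ?_, fun v => ?_⟩
    · show a (b w) = w
      rw [hb w hw, ha w hw]
    · show a (b v) - v ∈ W
      have h : a (b v) - v = (a (b v) - b v) + (b v - v) := by abel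
      rw [h]
      exact W.add_mem (ha' _) (hb' _)
  inv_mem' := by
    rintro a ⟨ha, ha'⟩
    have h1 : ∀ v, a (a⁻¹ v) = v := fun v => a.apply_symm_apply v
    refine ⟨fun w hw => ?_, fun v => ?_⟩
    · have h2 : a (a⁻¹ w) = a w := by rw [h1, ha w hw]
      exact a.injective h2
    · have h2 := ha' (a⁻¹ v)
      rw [h1] at h2
      rw [← neg_sub]
      exact W.neg_mem h2

theorem rad_comm (W : Submodule F V) : ∀ a ∈ rad W, ∀ b ∈ rad W, a * b = b * a := by
  rintro a ⟨ha, ha'⟩ b ⟨hb, hb'⟩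
  ext v
  show a (b v) = b (a v)
  have h1 : a (b v) = (b v - v) + a v := by
    have h2 : a (b v) = a (b v - v) + a v := by rw [← map_add, sub_add_cancel]
    rw [h2, ha _ (hb' v)]
  have h2 : b (a v) = (a v - v) + b v := by
    have h2 : b (a v) = b (a v - v) + b v := by rw [← map_add, sub_add_cancel]
    rw [h2, hb _ (ha' v)]
  rw [h1, h2]
  abel

theorem mem_normalizer_rad [FiniteDimensional F V] {W : Submodule F V} {x : V ≃ₗ[F] V}
    (h : ∀ w ∈ W, x w ∈ W) : x ∈ Subgroup.normalizer (rad W : Set (V ≃ₗ[F] V)) := by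
  have hm : W.map (x : V →ₗ[F] V) = W := by
    refine Submodule.eq_of_le_of_finrank_eq ?_ ?_
    · rintro _ ⟨w, hw, rfl⟩
      exact h w hw
    · exact LinearEquiv.finrank_map_eq x W
  have h' : ∀ w ∈ W, x⁻¹ w ∈ W := by
    intro w hw
    rw [← hm] at hw
    obtain ⟨u, hu, rfl⟩ := hw
    have : x⁻¹ ((x : V →ₗ[F] V) u) = u := x.symm_apply_apply u
    rw [this]
    exact hu
  have hx1 : ∀ v, x (x⁻¹ v) = v := fun v => x.apply_symm_apply v
  have hx2 : ∀ v, x⁻¹ (x v) = v := fun v => x.symm_apply_apply v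
  rw [Subgroup.mem_normalizer_iff]
  intro g
  constructor
  · rintro ⟨h1, h2⟩
    refine ⟨fun w hw => ?_, fun v => ?_⟩
    · show x (g (x⁻¹ w)) = w
      rw [h1 _ (h' w hw), hx1]
    · show x (g (x⁻¹ v)) - v ∈ W
      have h3 : x (g (x⁻¹ v)) - v = x (g (x⁻¹ v) - x⁻¹ v) := by rw [map_sub, hx1]
      rw [h3]
      exact h _ (h2 _)
  · rintro ⟨h1, h2⟩
    have h4 : ∀ v, (x * g * x⁻¹) (x v) = x (g v) := fun v => by
      show x (g (x⁻¹ (x v))) = _
      rw [hx2]
    refine ⟨fun w hw => ?_, fun v => ?_⟩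
    · have h3 := h1 _ (h w hw)
      rw [h4] at h3
      exact x.injective h3
    · have h3 := h2 (x v)
      rw [h4, ← map_sub] at h3
      have h5 := h' _ h3
      rwa [hx2] at h5

theorem tv_mem_rad {W : Submodule F V} {f : Dual F V} {v : V} (h : f v = 0) (hv : v ∈ W)
    (hf : ∀ w ∈ W, f w = 0) : LinearEquiv.transvection h ∈ rad W := by
  refine ⟨fun w hw => ?_, fun u => ?_⟩
  · rw [LinearEquiv.transvection.apply, hf w hw, zero_smul, add_zero]
  · rw [LinearEquiv.transvection.apply, add_sub_cancel_left]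
    exact W.smul_mem _ hv

theorem tv_comm {f g : Dual F V} {v w : V} (h : f v = 0) (h' : g w = 0) (h1 : f w = 0)
    (h2 : g v = 0) : LinearEquiv.transvection h * LinearEquiv.transvection h' =
      LinearEquiv.transvection h' * LinearEquiv.transvection h := by
  ext u
  show LinearEquiv.transvection h (LinearEquiv.transvection h' u) =
    LinearEquiv.transvection h' (LinearEquiv.transvection h u)
  simp only [LinearEquiv.transvection.apply, map_add, map_smul, h1, h2, zero_smul, add_zero]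
  abel

theorem tv_not_scalar {f : Dual F V} {v : V} (h : f v = 0) (hf : f ≠ 0) (hv : v ≠ 0) :
    ¬ IsScalar (LinearEquiv.transvection h) := by
  rintro ⟨c, hc⟩
  have h1 := hc v
  rw [LinearEquiv.transvection.apply, h, zero_smul, add_zero] at h1
  have h2 : c = 1 := by
    have h3 : (c - 1) • v = 0 := by rw [sub_smul, one_smul, ← h1, sub_self]
    rcases smul_eq_zero.1 h3 with h4 | h4
    · exact sub_eq_zero.1 h4
    · exact absurd h4 hv
  apply hf
  ext u
  have h3 := hc u
  rw [LinearEquiv.transvection.apply, h2, one_smul, add_eq_left] at h3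
  rcases smul_eq_zero.1 h3 with h4 | h4
  · exact h4
  · exact absurd h4 hv

theorem exists_dual2 [FiniteDimensional F V] (hn : 3 ≤ finrank F V) (u v : V) :
    ∃ f : Dual F V, f ≠ 0 ∧ f u = 0 ∧ f v = 0 := by
  classical
  have h1 : Submodule.span F ({u, v} : Set V) < ⊤ := by
    rw [lt_top_iff_ne_top]
    intro h
    have h2 := finrank_span_le_card (R := F) ({u, v} : Set V)
    rw [h, finrank_top] at h2
    have h3 : ({u, v} : Set V).toFinset.card ≤ 2 := by
      rw [Set.toFinset_insert, Set.toFinset_singleton]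
      exact Finset.card_le_two
    omega
  obtain ⟨f, hf, h2⟩ := Submodule.exists_le_ker_of_lt_top _ h1
  exact ⟨f, hf, h2 (Submodule.subset_span (by simp)), h2 (Submodule.subset_span (by simp))⟩

theorem exists_vec2 [FiniteDimensional F V] (hn : 3 ≤ finrank F V) (f g : Dual F V) :
    ∃ v : V, v ≠ 0 ∧ f v = 0 ∧ g v = 0 := by
  by_contra hcon
  push Not at hcon
  have h1 : Function.Injective (f.prod g) := by
    rw [injective_iff_map_eq_zero]
    intro v hv
    rw [LinearMap.prod_apply, Prod.mk_eq_zero] at hv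
    by_contra h0
    exact hcon v h0 hv.1 hv.2
  have h2 := LinearMap.finrank_le_finrank_of_injective h1
  rw [finrank_prod, finrank_self] at h2
  omega

/-- `x` is at distance at most two from the transvection `(f, v)`. -/
def Lk (x : V ≃ₗ[F] V) (f : Dual F V) (v : V) : Prop :=
  ∀ h : f v = 0, ∃ a : V ≃ₗ[F] V, LinearEquiv.det a = 1 ∧ ¬ IsScalar a ∧ Sol x a ∧
    Sol a (LinearEquiv.transvection h)

/-- `x` is linked to a large set of transvections. -/
def Many (x : V ≃ₗ[F] V) : Prop :=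
  (∃ w : V, w ≠ 0 ∧ ∀ (f : Dual F V) (v : V), f ≠ 0 → v ≠ 0 → f w = 0 → Lk x f v) ∨
    (∃ ψ : Dual F V, ψ ≠ 0 ∧ ∀ (f : Dual F V) (v : V), f ≠ 0 → v ≠ 0 → ψ v = 0 → Lk x f v)

theorem red_link [FiniteDimensional F V] (hn : 3 ≤ finrank F V) {x : V ≃ₗ[F] V}
    {W : Submodule F V} (h0 : W ≠ ⊥) (h1 : W ≠ ⊤) (hx : ∀ w ∈ W, x w ∈ W) : Many x := by
  have hN := mem_normalizer_rad hx
  by_cases h2 : 2 ≤ finrank F W
  · right
    obtain ⟨ψ, hψ, h3⟩ := Submodule.exists_le_ker_of_lt_top _ (lt_top_iff_ne_top.2 h1)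
    refine ⟨ψ, hψ, fun f v hf hv hψv h => ?_⟩
    have h4 : ∃ w ∈ W, w ≠ 0 ∧ f w = 0 := by
      by_contra hcon
      push Not at hcon
      have h5 : Function.Injective (f.comp W.subtype) := by
        rw [injective_iff_map_eq_zero]
        rintro ⟨w, hw⟩ hfw
        by_contra h6
        exact hcon w hw (fun h7 => h6 (by ext; exact h7)) hfw
      have h6 := LinearMap.finrank_le_finrank_of_injective h5
      rw [finrank_self] at h6
      omega
    obtain ⟨w, hw, hw0, hfw⟩ := h4
    have hψw : ψ w = 0 := h3 hw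
    refine ⟨LinearEquiv.transvection hψw, LinearEquiv.transvection.det_eq_one _,
      tv_not_scalar _ hψ hw0, ?_, ?_⟩
    · exact solv_of_normalizer (rad W) (rad_comm W) hN (tv_mem_rad _ hw fun u hu => h3 hu)
    · exact sol_of_comm (tv_comm hψw h hψv hfw)
  · left
    obtain ⟨w, hw, hw0⟩ := Submodule.exists_mem_ne_zero_of_ne_bot h0
    refine ⟨w, hw0, fun f v hf hv hfw h => ?_⟩
    obtain ⟨ψ, hψ, hψw, hψv⟩ := exists_dual2 hn w v
    have hspan : ∀ u ∈ W, ψ u = 0 := by
      intro u hu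
      have h3 : Submodule.span F {w} ≤ W := (Submodule.span_singleton_le_iff_mem _ _).2 hw
      have h4 : Submodule.span F {w} = W := by
        refine Submodule.eq_of_le_of_finrank_le h3 ?_
        rw [finrank_span_singleton hw0]
        omega
      rw [← h4] at hu
      obtain ⟨c, rfl⟩ := Submodule.mem_span_singleton.1 hu
      rw [map_smul, hψw, smul_zero]
    refine ⟨LinearEquiv.transvection hψw, LinearEquiv.transvection.det_eq_one _,
      tv_not_scalar _ hψ hw0, ?_, ?_⟩
    · exact solv_of_normalizer (rad W) (rad_comm W) hN (tv_mem_rad _ hw hspan)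
    · exact sol_of_comm (tv_comm hψw h hψv hfw)

theorem exists_common [FiniteDimensional F V] (hn : 3 ≤ finrank F V) {x y : V ≃ₗ[F] V}
    (hx : Many x) (hy : Many y) : ∃ (f : Dual F V) (v : V), f ≠ 0 ∧ v ≠ 0 ∧ f v = 0 ∧
      Lk x f v ∧ Lk y f v := by
  rcases hx with ⟨w, hw, hx⟩ | ⟨ψ, hψ, hx⟩ <;> rcases hy with ⟨w', hw', hy⟩ | ⟨ψ', hψ', hy⟩
  · obtain ⟨f, hf, h1, h2⟩ := exists_dual2 hn w w'
    exact ⟨f, w, hf, hw, h1, hx f w hf hw h1, hy f w hf hw h2⟩
  · obtain ⟨v, hv, h1, -⟩ := exists_vec2 hn ψ' ψ'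
    obtain ⟨f, hf, h2, h3⟩ := exists_dual2 hn w v
    exact ⟨f, v, hf, hv, h3, hx f v hf hv h2, hy f v hf hv h1⟩
  · obtain ⟨v, hv, h1, -⟩ := exists_vec2 hn ψ ψ
    obtain ⟨f, hf, h2, h3⟩ := exists_dual2 hn w' v
    exact ⟨f, v, hf, hv, h3, hx f v hf hv h1, hy f v hf hv h2⟩
  · obtain ⟨v, hv, h1, h2⟩ := exists_vec2 hn ψ ψ'
    exact ⟨ψ, v, hψ, hv, h1, hx ψ v hψ hv h1, hy ψ v hψ hv h2⟩

end H82SG
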